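import Pool.Agent.R210.Q12
import Pool.Agent.N255.AX.Off

/-!
Axisymmetric Navier-Stokes flows with swirl (smooth solutions in a rotationally symmetric open set,
with a force): regularity at the time `T` at all points off the axis, and at a point of the axis
near which the direction of the vorticity, where the vorticity is large, is Hoelder continuous in a
meridional half plane with an arbitrarily small exponent `β` and tends to the vertical direction at
the rate `c(t) ρ ^ β` on approach to the axis, with a coefficient `c(t)` which is integrable to the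
power `(1 + 2 β) / β ^ 2` in time. `ρ` is the distance to the axis.

`V = Fin 3 → ℝ` with the maximum norm. See the claim file for the definitions.
-/

set_option autoImplicit false

open MeasureTheory Set Metric
open scoped ContDiff
open H459R3.NS W221.NS Pool.Agent.TH305.AX

namespace Pool.Agent.Results.MP_09540e_an.AxisDirectionCoherence

/-- The Euclidean length of a vector of `ℝ³`. -/
noncomputable def len (a : V) : ℝ := Real.sqrt (∑ i, a i ^ 2)

/-- The curl of a vector field. -/
noncomputable def curl (v : V → V) (x : V) : V :=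
  ![pd 1 (fun y => v y 2) x - pd 2 (fun y => v y 1) x,
    pd 2 (fun y => v y 0) x - pd 0 (fun y => v y 2) x,
    pd 0 (fun y => v y 1) x - pd 1 (fun y => v y 0) x]

/-- The length of the horizontal part of `x`; for a point `x` this is its distance to the axis. -/
noncomputable def axisDist (x : V) : ℝ := √(x 0 ^ 2 + x 1 ^ 2)

/-- The set `Ω` is rotationally symmetric and the field `v` is axisymmetric on it. -/
def AxisymmetricOn (Ω : Set V) (v : V → V) : Prop :=
  ∀ (θ : ℝ), ∀ x ∈ Ω, rot θ x ∈ Ω ∧ v (rot θ x) = rot θ (v x)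

/-- A meridional half plane. -/
def halfPlane : Set V := {x | 0 ≤ x 0 ∧ x 1 = 0}

/-- For points `x`, `y` of the half plane in `U` at which the length of `W` is greater than `K` the
unit vectors `ξ = W / |W|` satisfy `|ξ(x) - ξ(y)| ≤ c |x - y| ^ β`, and the horizontal part of
`ξ(x)` has length at most `c ρ(x) ^ β` (the denominators are cleared). -/
def MeridianCoherent (W : V → V) (K c β : ℝ) (U : Set V) : Prop :=
  (∀ x ∈ U ∩ halfPlane, ∀ y ∈ U ∩ halfPlane, K < len (W x) → K < len (W y) →
    len (len (W y) • W x - len (W x) • W y) ≤ c * len (x - y) ^ β * (len (W x) * len (W y))) ∧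
  ∀ x ∈ U ∩ halfPlane, K < len (W x) → axisDist (W x) ≤ c * axisDist x ^ β * len (W x)

/-- At almost every time of an interval `(T₁, T)` the vorticity is coherent near `x₀` in the sense
of `MeridianCoherent`, with a coefficient `c(t)` whose power `(1 + 2 β) / β ^ 2` is integrable. -/
def CoherentNear (T β : ℝ) (u : ℝ → V → V) (x₀ : V) : Prop := ∃ (K r T₁ : ℝ) (c : ℝ → ℝ),
  0 < r ∧ T₁ < T ∧
  MemLp c (ENNReal.ofReal ((1 + 2 * β) / β ^ 2)) (volume.restrict (Ioo T₁ T)) ∧
  ∀ᵐ t ∂(volume.restrict (Ioo T₁ T)), MeridianCoherent (curl (u t)) K (c t) β (ball x₀ r)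

/-- Let `0 < β ≤ 1`, and let `(u, p)` be a smooth axisymmetric solution (with swirl) of the
Navier-Stokes equations with viscosity `ν > 0` and force `f` in `(0, T) × Ω`, `Ω` a rotationally
symmetric open subset of `ℝ³` (or `ℝ³` itself), with bounded energy and finite dissipation in `Ω`.
Let `x₀` be a point of `Ω`; if `x₀` is on the axis we assume `CoherentNear T β u x₀`. Then `x₀` is
regular at the time `T`: `u` is bounded in `(T - δ, T) × ball x₀ δ` for some `δ > 0`. -/
theorem result (β : ℝ) (hβ0 : 0 < β) (hβ1 : β ≤ 1) (ν T E F : ℝ) (Ω : Set V) (u : ℝ → V → V)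
    (p : ℝ → V → ℝ) (f : ℝ → V → V) (hν : 0 < ν) (hT : 0 < T) (h : OSolF ν T E F Ω u p f)
    (haxi : ∀ t ∈ Ioo 0 T, AxisymmetricOn Ω (u t))
    (hfin : ∫⁻ t in Ioo 0 T, ∫⁻ y in Ω, ENNReal.ofReal (gsq (u t) y) ≠ ⊤) (x₀ : V) (hx₀ : x₀ ∈ Ω)
    (hco : axisDist x₀ = 0 → CoherentNear T β u x₀) :
    ∃ δ B : ℝ, 0 < δ ∧ ∀ t ∈ Ioo (T - δ) T, ∀ y ∈ ball x₀ δ, ‖u t y‖ ≤ B := by
  have key : ¬ Sing T u x₀ := by
    rcases (sg_nonneg x₀).eq_or_lt with h0 | h0
    · have e0 : x₀ 0 ^ 2 + x₀ 1 ^ 2 = 0 := h0.symm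
      have a0 : x₀ 0 = 0 := by nlinarith [sq_nonneg (x₀ 0), sq_nonneg (x₀ 1)]
      have a1 : x₀ 1 = 0 := by nlinarith [sq_nonneg (x₀ 0), sq_nonneg (x₀ 1)]
      obtain ⟨K, r, T₁, c, hr, hT₁, hc, hdir⟩ := hco (by
        unfold axisDist
        rw [e0, Real.sqrt_zero])
      obtain ⟨ρ, hρ, hρΩ⟩ := Metric.isOpen_iff.1 h.openO x₀ hx₀
      have hr' : 0 < min r ρ := lt_min hr hρ
      have hsub : ∀ᵐ t ∂(volume.restrict (Ioo (max T₁ 0) T)),
          Pool.Agent.R210.DirL (Pool.Agent.R210.cu (u t)) K (3 * |c t|) β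
            (ball x₀ (min r ρ / 2)) := by
        have h1 : ∀ᵐ t ∂(volume.restrict (Ioo (max T₁ 0) T)),
            MeridianCoherent (curl (u t)) K (c t) β (ball x₀ r) :=
          ae_restrict_of_ae_restrict_of_subset (Ioo_subset_Ioo_left (le_max_left _ _)) hdir
        filter_upwards [h1, ae_restrict_mem measurableSet_Ioo] with t ht htm
        have ht0 : t ∈ Ioo 0 T := ⟨(le_max_right _ _).trans_lt htm.1, htm.2⟩
        have hle : ball x₀ (min r ρ) ⊆ ball x₀ r := ball_subset_ball (min_le_left _ _)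
        have hsm : ContDiffOn ℝ ∞ (u t) Ω := by
          have h2 : ContDiffOn ℝ ∞ (fun x : V => ((t, x) : ℝ × V)) Ω :=
            (contDiff_const.prodMk contDiff_id).contDiffOn
          exact h.smooth_u.comp h2 fun x hx => ⟨ht0, hx⟩
        refine Pool.Agent.N255.AX.coh hβ0 hβ1 hr' a0 a1 (fun θ x hx => ?_) ?_ ?_
        · exact Pool.Agent.N255.AX.curl_rot h.openO (fun y hy =>
            ((hsm.contDiffAt (h.openO.mem_nhds hy)).differentiableAt (by norm_num)))
            (haxi t ht0) θ (hρΩ (ball_subset_ball (min_le_right _ _) hx))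
        · intro x hx y hy x0 x1 y0 y1 kx ky
          exact ht.1 x ⟨hle hx, x0, x1⟩ y ⟨hle hy, y0, y1⟩ kx ky
        · intro x hx x0 x1 kx
          have h3 := ht.2 x ⟨hle hx, x0, x1⟩ kx
          have h4 : axisDist x = x 0 := by
            unfold axisDist
            rw [x1]
            simp [Real.sqrt_sq x0]
          rw [h4] at h3
          exact h3
      have hc' : MemLp (fun t => 3 * |c t|) (ENNReal.ofReal ((1 + 2 * β) / β ^ 2))
          (volume.restrict (Ioo (max T₁ 0) T)) := by
        have h5 : MemLp c (ENNReal.ofReal ((1 + 2 * β) / β ^ 2))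
            (volume.restrict (Ioo (max T₁ 0) T)) :=
          hc.mono_measure (Measure.restrict_mono (Ioo_subset_Ioo_left (le_max_left _ _)) le_rfl)
        exact h5.norm.const_mul 3
      exact Pool.Agent.R210.local_reg hν h hfin hx₀ hβ0 hβ1 (half_pos hr') (le_max_right _ _)
        (max_lt hT₁ hT) hc' hsub
    · exact Pool.Agent.N255.AX.off_axis hν hT h haxi hfin hx₀ h0
  rw [Sing] at key
  push Not at key
  obtain ⟨δ, hδ, B, hB⟩ := key
  exact ⟨δ, B, hδ, hB⟩

end Pool.Agent.Results.MP_09540e_an.AxisDirectionCoherence
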