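import Pool.Agent.N976.UE.Final
import Pool.Agent.N976.UA.Main

/-!
# Concentration of the energy at one point of the axis for the exact axisymmetric Navier-Stokes
equations with swirl under very sparse workless constraints

We consider the Navier-Stokes equations on `ℝ³` with the exact nonlinearity, pressure and
viscosity and without force, under linear constraints `∫ u(t,y) · r_p(y) dy = 0` imposed through
their reaction forces (d'Alembert's principle): `∂ₜu + (u·∇)u - νΔu + ∇p = Σ λ_p(t) r_p`, that is,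
the left-hand side is orthogonal to every divergence-free field which satisfies the constraints.
Everything is axisymmetric: the constraint fields, the initial velocity (with swirl) and the
solution. The reaction forces do no work, the energy identity holds and classical solutions are
unique. (With finitely many constraints the reaction force would be bounded and smooth in `y`:
just the Navier-Stokes equations with a harmless force.) The constraint fields `r (i, n)` are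
`C^∞`, four for every `n`, and vanish for `|y| ≥ R^(-(6/5)^n)`: for `δ ≤ 1/R` at most
`4 (1 + log log (1/δ) / log (6/5))` of them are not supported in the ball `|y| < δ`, and `R` is as
large as we want.

For every `ε > 0` and every viscosity there is a `C^∞` axisymmetric datum with swirl supported in
the unit ball, with a `C^∞` axisymmetric solution up to a finite time `T`, which loses at most the
fraction `ε` of its energy by viscosity, while for every `δ > 0` the part of the energy outside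
the ball `|y| < δ` is at most the fraction `ε` near the time `T`: almost all the energy
concentrates at one point of the axis.
-/

open Set MeasureTheory
open scoped ContDiff

namespace Pool.Agent.Results.MP_09540e_an.EnergyConcentration

/-- The space `ℝ³`. -/
abbrev E3 := EuclideanSpace ℝ (Fin 3)

/-- The standard basis. -/
noncomputable def bv (i : Fin 3) : E3 := EuclideanSpace.single i 1

/-- The divergence `div v`. -/
noncomputable def divg (v : E3 → E3) (y : E3) : ℝ := ∑ i : Fin 3, (fderiv ℝ v y (bv i)) i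

/-- The field `(a · ∇) b`. -/
noncomputable def adv (a b : E3 → E3) (y : E3) : E3 := fderiv ℝ b y (a y)

/-- The Laplacian `Δ v`. -/
noncomputable def lap (v : E3 → E3) (y : E3) : E3 :=
  ∑ i : Fin 3, fderiv ℝ (fun z => fderiv ℝ v z (bv i)) y (bv i)

/-- `∫ v · w`. -/
noncomputable def ip (v w : E3 → E3) : ℝ := ∫ y, inner ℝ (v y) (w y)

/-- `∫ |∇v|²`. -/
noncomputable def dir (v : E3 → E3) : ℝ := ∫ y, ∑ i : Fin 3, ‖fderiv ℝ v y (bv i)‖ ^ 2

/-- The time derivative `∂ₜ u` on `[0, T)` (one-sided at `t = 0`). -/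
noncomputable def dt (T : ℝ) (u : ℝ → E3 → E3) (t : ℝ) (y : E3) : E3 :=
  derivWithin (fun τ => u τ y) (Ico 0 T) t

/-- `|v|, |Dv|, |D²v| ≤ M (1 + |y|)⁻²`. -/
structure Dec (M : ℝ) (v : E3 → E3) : Prop where
  d0 : ∀ y, (1 + ‖y‖) ^ 2 * ‖v y‖ ≤ M
  d1 : ∀ y, (1 + ‖y‖) ^ 2 * ‖fderiv ℝ v y‖ ≤ M
  d2 : ∀ y i j, (1 + ‖y‖) ^ 2 * ‖fderiv ℝ (fun z => fderiv ℝ v z (bv i)) y (bv j)‖ ≤ M

/-- Smooth divergence-free fields, which decay together with two derivatives. -/
structure Fld (v : E3 → E3) : Prop where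
  smooth : ContDiff ℝ ∞ v
  div : ∀ y, divg v y = 0
  dec : ∃ M, Dec M v

/-- `∂ₜu + (u·∇)u - νΔu` at the time `t`. -/
noncomputable def res (ν T : ℝ) (u : ℝ → E3 → E3) (t : ℝ) (y : E3) : E3 :=
  dt T u t y + adv (u t) (u t) y - ν • lap (u t) y

/-- Classical solutions on `[0, T)` of the Navier-Stokes equations with viscosity `ν` under the
constraints `∫ u(t) · r i = 0`: the left-hand side `∂ₜu + (u·∇)u - νΔu` is orthogonal to every
smooth decaying divergence-free field which satisfies the constraints. -/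
structure Sol {ι : Type} (ν : ℝ) (r : ι → E3 → E3) (T : ℝ) (u : ℝ → E3 → E3) : Prop where
  c1 : ContDiffOn ℝ 1 (fun z : ℝ × E3 => u z.1 z.2) (Ico 0 T ×ˢ univ)
  smooth : ∀ t ∈ Ico 0 T, ContDiff ℝ ∞ (u t)
  div : ∀ t ∈ Ico 0 T, ∀ y, divg (u t) y = 0
  dec : ∀ T' < T, ∃ M, ∀ t ∈ Icc 0 T', Dec M (u t) ∧ ∀ y, (1 + ‖y‖) ^ 2 * ‖dt T u t y‖ ≤ M
  con : ∀ t ∈ Ico 0 T, ∀ i, ip (u t) (r i) = 0
  eqn : ∀ t ∈ Ico 0 T, ∀ w, Fld w → (∀ i, ip w (r i) = 0) → ip (res ν T u t) w = 0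

/-- The radii: `r (i, n)` vanishes for `|y| ≥ R^(-(6/5)^n)`. -/
def Supp (R : ℝ) (r : Fin 4 × ℕ → E3 → E3) : Prop :=
  ∀ i n y, 1 ≤ R ^ ((6 / 5 : ℝ) ^ n) * ‖y‖ → r (i, n) y = 0

/-- The residual `∂ₜu + (u·∇)u - νΔu` is the sum of the reaction forces `l p (t) r p`; the
coefficients are smooth in time and rapidly decreasing in the scale. -/
structure Reaction (ν R : ℝ) (r : Fin 4 × ℕ → E3 → E3) (T : ℝ) (u : ℝ → E3 → E3)
    (l : Fin 4 × ℕ → ℝ → ℝ) : Prop where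
  smooth : ∀ p, ContDiffOn ℝ ∞ (l p) (Ico 0 T)
  rapid : ∀ k : ℕ, ∀ T' < T, ∃ M, ∀ t ∈ Icc 0 T', ∀ i n,
    (R ^ ((6 / 5 : ℝ) ^ n)) ^ k * |l (i, n) t| ≤ M
  sum : ∀ t ∈ Ico 0 T, ∀ y, HasSum (fun p => l p t • r p y) (res ν T u t y)

/-- The energy identity holds on `[0, T)`, the total loss by viscosity is at most the fraction `ε`
of the energy, but outside of any given ball `|y| < δ` at most the fraction `ε` of the energy is
left near the time `T`. -/
structure Conc (ε ν T : ℝ) (u : ℝ → E3 → E3) : Prop where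
  int : ∀ t ∈ Ico 0 T, IntervalIntegrable (fun s => dir (u s)) volume 0 t
  energy : ∀ t ∈ Ico 0 T,
    ip (u t) (u t) + 2 * (ν * ∫ s in (0 : ℝ)..t, dir (u s)) = ip (u 0) (u 0)
  low : ∀ t ∈ Ico 0 T, (1 - ε) * ip (u 0) (u 0) ≤ ip (u t) (u t)
  out : ∀ δ > 0, ∃ t₀ < T, ∀ t ∈ Ico t₀ T, 0 ≤ t →
    ∫ y in {y : E3 | δ ≤ ‖y‖}, ‖u t y‖ ^ 2 ≤ ε * ip (u 0) (u 0)

/-- The rotation by the angle `α` about the third axis. -/
noncomputable def rot (α : ℝ) (y : E3) : E3 :=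
  WithLp.toLp 2 ![Real.cos α * y 0 - Real.sin α * y 1, Real.sin α * y 0 + Real.cos α * y 1, y 2]

/-- Axisymmetric fields. -/
def Axi (v : E3 → E3) : Prop := ∀ (α : ℝ) (y : E3), v (rot α y) = rot α (v y)

/-- The circulation `r u_θ`, the distance to the axis times the swirl. -/
def swirl (v : E3 → E3) (y : E3) : ℝ := y 0 * v y 1 - y 1 * v y 0

/-- For all `R₀` and `ε > 0` there are `R ≥ R₀`, `T₀ > 0` and `C^∞` axisymmetric fields `P` (with swirl), `r (i, n)` on `ℝ³`,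
`i < 4`, `n ≥ 0`, `div P = 0`, `P ≠ 0`, `P = 0` for `|y| ≥ 1`, `r (i, n) = 0` for
`|y| ≥ R^(-(6/5)^n)`, such that for every viscosity `ν > 0` the Navier-Stokes equations under the
constraints `∫ u · r (i, n) = 0` have a classical solution `u` with `u(0) = ν P` on
`[0, T) × ℝ³`, `T = T₀/ν`, such that
* `u(t)` is axisymmetric;
* `u` is `C^∞` in `(t, y)` on `[0, T) × ℝ³` and vanishes for `|y| ≥ 1`;
* `∂ₜu + (u·∇)u - νΔu = ∑ l_{i,n}(t) r_{i,n}(y)` with `l_{i,n}` smooth in time and rapidly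
  decreasing in the scale (the reaction forces; the pressure is zero);
* `T` is the maximal time of existence: a classical solution on any `[0, T')` with the same
  initial values has `T' ≤ T` and agrees with `u`;
* the energy identity holds and `|u(t)|² ≥ (1 - ε) |u(0)|²` in `L²`, for all `t < T`;
* for every `δ > 0`, `∫_{|y| ≥ δ} |u(t)|² ≤ ε |u(0)|²` for all `t < T` near `T`: the energy
  concentrates at the origin. -/
theorem result (R₀ ε : ℝ) (hε : 0 < ε) :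
    ∃ (R T₀ : ℝ) (P : E3 → E3) (r : Fin 4 × ℕ → E3 → E3), R₀ ≤ R ∧ 1 < R ∧ 0 < T₀ ∧
      ContDiff ℝ ∞ P ∧ (∀ y, 1 ≤ ‖y‖ → P y = 0) ∧ (∀ y, divg P y = 0) ∧ 0 < ip P P ∧
      (∀ p, ContDiff ℝ ∞ (r p)) ∧ Supp R r ∧ Axi P ∧ (∀ p, Axi (r p)) ∧ (∃ y, swirl P y ≠ 0) ∧
      ∀ ν : ℝ, 0 < ν → ∃ (u : ℝ → E3 → E3) (l : Fin 4 × ℕ → ℝ → ℝ),
        Sol ν r (T₀ / ν) u ∧ (∀ y, u 0 y = ν • P y) ∧ (∀ t ∈ Ico 0 (T₀ / ν), Axi (u t)) ∧
        ContDiffOn ℝ ∞ (fun z : ℝ × E3 => u z.1 z.2) (Ico 0 (T₀ / ν) ×ˢ univ) ∧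
        (∀ t ∈ Ico 0 (T₀ / ν), ∀ y, 1 ≤ ‖y‖ → u t y = 0) ∧
        Reaction ν R r (T₀ / ν) u l ∧
        (∀ (T' : ℝ) (v : ℝ → E3 → E3), 0 < T' → Sol ν r T' v → v 0 = u 0 →
          T' ≤ T₀ / ν ∧ ∀ t ∈ Ico 0 T', v t = u t) ∧
        Conc ε ν (T₀ / ν) u := by
  have eD : ∀ (M : ℝ) (v : E3 → E3), Pool.Agent.N976.SC.Dec M v ↔ Dec M v :=
    fun M v => ⟨fun h => ⟨h.d0, h.d1, h.d2⟩, fun h => ⟨h.d0, h.d1, h.d2⟩⟩
  have eF : ∀ v : E3 → E3, Pool.Agent.N976.SC.Fld v ↔ Fld v := fun v =>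
    ⟨fun h => ⟨h.smooth, h.div, by obtain ⟨M, hM⟩ := h.dec; exact ⟨M, (eD M v).1 hM⟩⟩,
      fun h => ⟨h.smooth, h.div, by obtain ⟨M, hM⟩ := h.dec; exact ⟨M, (eD M v).2 hM⟩⟩⟩
  have eR : ∀ (ν T : ℝ) (u : ℝ → E3 → E3) (t : ℝ),
      (fun y => Pool.Agent.N976.SC.dt T u t y + Pool.Agent.N976.SC.adv (u t) (u t) y
        - ν • Pool.Agent.N976.SC.lap (u t) y - (0 : E3)) = res ν T u t := by
    intro ν T u t
    ext1 y
    rw [sub_zero]
    rfl
  have eS : ∀ (r : Fin 4 × ℕ → E3 → E3) (ν T : ℝ) (u : ℝ → E3 → E3),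
      Pool.Agent.N976.EN.SolF ν r (fun _ _ => 0) T u ↔ Sol ν r T u := by
    intro r ν T u
    constructor
    · intro h
      refine ⟨h.c1, h.smooth, h.div, fun T' hT' => by
        obtain ⟨M, hM⟩ := h.dec T' hT'
        exact ⟨M, fun t ht => ⟨(eD M _).1 (hM t ht).1, (hM t ht).2⟩⟩, h.con, ?_⟩
      intro t ht w hw hc
      have h1 := h.eqn t ht w ((eF w).2 hw) hc
      rw [eR] at h1
      exact h1
    · intro h
      refine ⟨h.c1, h.smooth, h.div, fun T' hT' => by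
        obtain ⟨M, hM⟩ := h.dec T' hT'
        exact ⟨M, fun t ht => ⟨(eD M _).2 (hM t ht).1, (hM t ht).2⟩⟩, h.con, ?_⟩
      intro t ht w hw hc
      rw [eR]
      exact h.eqn t ht w ((eF w).1 hw) hc
  obtain ⟨⟨-, hY3, hY4, hY5⟩, hZ0, hZ1, hZ2, hZ3, -, -, hZ6⟩ := Pool.Agent.N976.UE.all
  obtain ⟨R, T₀, P, r, hR, hR1, hT0, hP, hPo, hdP, hPn, hAP, hAr, hsw, hr, hro, h⟩ :=
    Pool.Agent.N976.AX.mainA Pool.Agent.N976.AX.t_XA hY3 hY4 hY5 hZ0 hZ1 hZ2 hZ3 hZ6 ε R₀ hε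
  refine ⟨R, T₀, P, r, hR, hR1, hT0, hP, hPo, hdP, hPn, hr, hro, hAP, hAr, hsw, fun ν hν => ?_⟩
  obtain ⟨u, l, hSol, hu0, hax, hsm, huo, l1, l2, l3, huni, hen, hout⟩ := h ν hν
  refine ⟨u, l, (eS r ν _ u).1 hSol, hu0, hax, hsm, huo, ⟨l1, l2, l3⟩, ?_, ⟨fun t ht => (hen t ht).1,
    fun t ht => (hen t ht).2.1, fun t ht => (hen t ht).2.2, hout⟩⟩
  intro T' v hT' hv hv0
  exact huni T' v hT' ((eS r ν T' v).2 hv) hv0

end Pool.Agent.Results.MP_09540e_an.EnergyConcentration
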