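import Pool.Agent.N264.FLR.Main
import Pool.Agent.N264.FLR.Crit

/-!
Axisymmetric Navier-Stokes flows with swirl: if the radial velocity is bounded below near the axis
by a function of the distance for which the axis is accessible in the sense of Feller's test, then
the circulation tends to zero at the axis, with an explicit modulus which is uniform up to the
possible blow-up time and depends only on the maximum of the initial circulation.

`V = Fin 3 → ℝ` with the maximum norm. See the claim file for the definitions.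
-/

set_option autoImplicit false

open MeasureTheory Set Metric Filter Topology

namespace Pool.Agent.Results.MP_09540e_an.FellerModulus

open H459R3.NS W221.NS Pool.Agent.TH305.AX

/-- The scale density `exp (-∫_1^σ F(q) / (2 ν q) dq)` of the diffusion on the half line `σ > 0`
with generator `4 ν σ ∂² + 2 F(σ) ∂`. -/
noncomputable def scaleDensity (ν : ℝ) (F : ℝ → ℝ) (σ : ℝ) : ℝ :=
  Real.exp (-∫ q in (1 : ℝ)..σ, F q / (2 * ν * q))

/-- The scale function `∫_0^σ scaleDensity`. -/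
noncomputable def scale (ν : ℝ) (F : ℝ → ℝ) (σ : ℝ) : ℝ :=
  ∫ r in (0 : ℝ)..σ, scaleDensity ν F r

/-- `scaleDensity(r) ∫_r^S dq / (4 ν q scaleDensity(q))`, the integrand of Feller's test. -/
noncomputable def fellerIntegrand (ν : ℝ) (F : ℝ → ℝ) (S r : ℝ) : ℝ :=
  scaleDensity ν F r * ∫ q in r..S, 1 / (4 * ν * q * scaleDensity ν F q)

/-- Feller's test: the origin (the axis) is accessible. -/
def Accessible (ν : ℝ) (F : ℝ → ℝ) (S : ℝ) : Prop :=
  IntervalIntegrable (fellerIntegrand ν F S) volume 0 S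

/-- The mean time of absorption at `0` for the diffusion reflected at `S`. -/
noncomputable def absorptionTime (ν : ℝ) (F : ℝ → ℝ) (S σ : ℝ) : ℝ :=
  ∫ r in (0 : ℝ)..σ, fellerIntegrand ν F S r

/-- Let `Γ = circ (u t)` be the circulation, `σ = sg x` the square of the distance `ρ` to the axis,
and let `(u, p)` be a smooth axisymmetric solution of the Navier-Stokes equations on
`[0, T) × ℝ³`, `u` bounded on `[0, T'] × ℝ³` for each `T' < T`, with `|Γ| ≤ M` at time `0`. Let
`S > 0`, `δ ≥ 0`.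

Let `F` be a continuous function on `(0, ∞)` for which the axis is accessible. If
`ρ u_ρ ≥ -F(ρ ^ 2)` at all points with `0 < ρ ^ 2 < S` and `|Γ| > δ`, then, for all `t` in `(0, T)`
and all points with `ρ ^ 2 ≤ S`,
`|Γ| ≤ δ + M (absorptionTime(ρ ^ 2) / t + scale(ρ ^ 2) / scale(S))`, where both functions tend to
zero at the axis.

In particular, let `α > 0` and `K ≥ e S`. If `ρ u_ρ ≥ -2 ν + 2 ν (1 + α) / log (K / ρ ^ 2)` at all
points with `0 < ρ ^ 2 < S` and `|Γ| > δ`, then, for all `t` in `(0, T)` and all points with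
`0 < ρ ^ 2 ≤ S`, `|Γ| ≤ δ + M (1 + C / (ν t)) (log (K / S) / log (K / ρ ^ 2)) ^ α`,
`C = (2 + 2 α) ^ (1 + α) √(K S) / (2 α)`. -/
theorem result (ν T : ℝ) (hν : 0 < ν) (u : ℝ → V → V) (p : ℝ → V → ℝ) (h : BSol ν T u p)
    (M : ℝ) (hM : ∀ x, |circ (u 0) x| ≤ M) (δ S : ℝ) (hδ : 0 ≤ δ) (hS : 0 < S) :
    (∀ F : ℝ → ℝ, ContinuousOn F (Ioi 0) → Accessible ν F S →
      (∀ t ∈ Ioo 0 T, ∀ x, 0 < sg x → sg x < S → δ < |circ (u t) x| →
        -F (sg x) ≤ x 0 * u t x 0 + x 1 * u t x 1) →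
      (∀ t ∈ Ioo 0 T, ∀ x, sg x ≤ S → |circ (u t) x| ≤
        δ + M * (absorptionTime ν F S (sg x) / t + scale ν F (sg x) / scale ν F S)) ∧
      0 < scale ν F S ∧ Tendsto (scale ν F) (𝓝[>] 0) (𝓝 0) ∧
      Tendsto (absorptionTime ν F S) (𝓝[>] 0) (𝓝 0)) ∧
    ∀ α K : ℝ, 0 < α → S * Real.exp 1 ≤ K →
      (∀ t ∈ Ioo 0 T, ∀ x, 0 < sg x → sg x < S → δ < |circ (u t) x| →
        -(2 * ν) + 2 * ν * (1 + α) / Real.log (K / sg x) ≤ x 0 * u t x 0 + x 1 * u t x 1) →
      ∀ t ∈ Ioo 0 T, ∀ x, 0 < sg x → sg x ≤ S → |circ (u t) x| ≤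
        δ + M * ((1 + (2 + 2 * α) ^ (1 + α) * √(K * S) / (2 * α) / (ν * t)) *
          (Real.log (K / S) / Real.log (K / sg x)) ^ α) := by
  refine ⟨fun F hF hacc hc => ?_, fun α K hα hK hc t ht x hx hxS => ?_⟩
  · have hA : N264.FLR.Acc ν F S := hacc
    have hlim : ∀ g : ℝ → ℝ, ContinuousOn g (Icc 0 S) → g 0 = 0 → Tendsto g (𝓝[>] 0) (𝓝 0) := by
      intro g hg h0
      have h1 := hg 0 ⟨le_rfl, hS.le⟩
      rw [ContinuousWithinAt, h0] at h1
      have h2 : 𝓝[>] (0 : ℝ) ≤ 𝓝[Icc 0 S] 0 :=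
        nhdsWithin_le_iff.2 (mem_of_superset (Ioo_mem_nhdsGT hS) Ioo_subset_Icc_self)
      exact h1.mono_left h2
    refine ⟨N264.FLR.bound hν h hδ hS hF hA hM hc, N264.FLR.sc_pos hν hF hS hA hS le_rfl,
      hlim _ (N264.FLR.sc_cont hν hF hS hA) ?_, hlim _ (N264.FLR.et_cont hS hA) ?_⟩
    · exact intervalIntegral.integral_same
    · exact intervalIntegral.integral_same
  · have hM0 : 0 ≤ M := (abs_nonneg _).trans (hM 0)
    obtain ⟨hA, hb⟩ := N264.FLR.crit (α := α) hν hα hS hK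
    obtain ⟨b1, b2⟩ := hb (sg x) ⟨hx, hxS⟩
    have key := N264.FLR.bound hν h hδ hS (N264.FLR.cf_cont hS hK) hA hM
      (fun s hs y hy hyS hyd => by
        have h1 := hc s hs y hy hyS hyd
        unfold N264.FLR.cf
        rw [min_eq_left hyS.le]
        linarith) t ht x hxS
    rw [b1] at key
    refine key.trans ?_
    obtain ⟨X, hX⟩ : ∃ X, X = (Real.log (K / S) / Real.log (K / sg x)) ^ α := ⟨_, rfl⟩
    rw [← hX] at b2 ⊢
    have ht0 := ht.1
    have h2 : N264.FLR.et ν (N264.FLR.cf ν α K S) S (sg x) / t ≤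
        (2 + 2 * α) ^ (1 + α) * √(K * S) / (2 * α) / (ν * t) * X := by
      rw [div_le_iff₀ ht0]
      refine b2.trans (le_of_eq ?_)
      field_simp
    have h3 : N264.FLR.et ν (N264.FLR.cf ν α K S) S (sg x) / t + X ≤
        (1 + (2 + 2 * α) ^ (1 + α) * √(K * S) / (2 * α) / (ν * t)) * X := by linarith
    have := mul_le_mul_of_nonneg_left h3 hM0
    linarith

end Pool.Agent.Results.MP_09540e_an.FellerModulus
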